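import Pool.Agent.H2.GH3

namespace Pool.Agent.Results.MP_975509_gt.NoReal
open Pool.Agent.H2.GH3 GromovHausdorff

theorem result : ∃ (X₁ X₂ X₃ : Type) (_ : MetricSpace X₁) (_ : MetricSpace X₂) (_ : MetricSpace X₃)
    (_ : Nonempty X₁) (_ : Nonempty X₂) (_ : Nonempty X₃) (_ : CompactSpace X₁)
    (_ : CompactSpace X₂) (_ : CompactSpace X₃),
    ¬ Real3 X₁ X₂ X₃ (ghDist X₁ X₂) (ghDist X₁ X₃) (ghDist X₂ X₃) :=
  ⟨B₁.X, B₂.X, B₃.X, inferInstance, inferInstance, inferInstance, inferInstance, inferInstance,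
    inferInstance, inferInstance, inferInstance, inferInstance,
    B_not (ghDist_le (f := id) (by decide) Function.surjective_id)
      (ghDist_le (f := id) (by decide) Function.surjective_id)
      (ghDist_le (f := id) (by decide) Function.surjective_id)⟩

end Pool.Agent.Results.MP_975509_gt.NoReal
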